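import Mathlib
import Pool.Agent.helper98.DPZ.General

set_option autoImplicit false

open MeasureTheory ProbabilityTheory Filter

namespace Pool.Agent.Results.MP_1e2dfa_pr.VanishingFreeEnergy

/-- Position at time `n` of the nearest neighbour path on `ℤ³` started at the origin with steps
`σ 0, σ 1, …`; the step `(i, true)` is `+e_i` and `(i, false)` is `-e_i`. -/
def position {N : ℕ} (σ : Fin N → Fin 3 × Bool) (n : ℕ) : Fin 3 → ℤ :=
  ∑ k ∈ Finset.univ.filter (fun k : Fin N => k.val < n),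
    (Pi.single (σ k).1 (if (σ k).2 then (1 : ℤ) else -1) : Fin 3 → ℤ)

/-- The normalised partition function
`W_N^β = E[exp (∑_{n=1}^N (β ω(n,S_n) - β²/2))]` of simple random walk on `ℤ³` in the
environment `w`. -/
noncomputable def partitionFn (β : ℝ) (N : ℕ) (w : ℕ → (Fin 3 → ℤ) → ℝ) : ℝ :=
  ((6 : ℝ) ^ N)⁻¹ * ∑ σ : Fin N → Fin 3 × Bool,
    Real.exp (∑ n ∈ Finset.Icc 1 N, (β * w n (position σ n) - β ^ 2 / 2))

/-- The critical correlation functions of the problem on `ℤ³`: bounded, symmetric, positive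
definite, `h(0) = 1` and `h(x) ∼ |x|⁻²` (Euclidean norm). -/
structure CriticalCorrelation (h : (Fin 3 → ℤ) → ℝ) : Prop where
  bounded : ∃ M : ℝ, ∀ x, |h x| ≤ M
  symm : ∀ x, h (-x) = h x
  posDef : ∀ (s : Finset (Fin 3 → ℤ)) (a : (Fin 3 → ℤ) → ℝ),
    0 ≤ ∑ x ∈ s, ∑ y ∈ s, a x * a y * h (x - y)
  at_zero : h 0 = 1
  decay : Tendsto (fun x : Fin 3 → ℤ => h x * ∑ i : Fin 3, ((x i : ℝ)) ^ 2) cofinite (nhds 1)

/-- `ω` is a centred jointly Gaussian environment with covariance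
`E[ω(n,y) ω(m,z)] = 1_{n=m} h(y-z)`: every finite linear combination of the `ω n x` is centred
Gaussian with the variance prescribed by this covariance. -/
structure IsEnvironment (h : (Fin 3 → ℤ) → ℝ) {Ω : Type} [MeasurableSpace Ω] (P : Measure Ω)
    (ω : ℕ → (Fin 3 → ℤ) → Ω → ℝ) : Prop where
  measurable : ∀ n x, Measurable (ω n x)
  law : ∀ (s : Finset (ℕ × (Fin 3 → ℤ))) (a : ℕ × (Fin 3 → ℤ) → ℝ),
    P.map (fun w => ∑ i ∈ s, a i * ω i.1 i.2 w) =
      gaussianReal 0 (Real.toNNReal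
        (∑ i ∈ s, ∑ j ∈ s, a i * a j * (if i.1 = j.1 then h (i.2 - j.2) else 0)))

/-- For every critical correlation function `h` on `ℤ³` there are a free energy function `p` and
`β₀ > 0` with `p β = 0` for `0 < β < β₀`, such that in every Gaussian environment with
correlation `h` and for every `β > 0`, almost surely `N⁻¹ log W_N^β → p β`. -/
theorem result : ∀ h : (Fin 3 → ℤ) → ℝ, CriticalCorrelation h →
    ∃ (p : ℝ → ℝ) (β₀ : ℝ), 0 < β₀ ∧ (∀ β : ℝ, 0 < β → β < β₀ → p β = 0) ∧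
      ∀ (Ω : Type) [MeasurableSpace Ω] (P : Measure Ω) [IsProbabilityMeasure P]
        (ω : ℕ → (Fin 3 → ℤ) → Ω → ℝ), IsEnvironment h P ω →
        ∀ β : ℝ, 0 < β → ∀ᵐ w ∂P,
          Tendsto (fun N : ℕ => Real.log (partitionFn β N (fun n x => ω n x w)) / (N : ℝ))
            atTop (nhds (p β)) := by
  intro h hh
  obtain ⟨p, β₀, hβ₀, hz, hconv⟩ := Pool.Agent.helper98.DPZ.general h hh.bounded hh.symm
    hh.posDef hh.at_zero hh.decay
  refine ⟨p, β₀, hβ₀, fun β h1 h2 => hz β ⟨h1, h2⟩, ?_⟩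
  intro Ω _ P _ ω hω β _
  filter_upwards [hconv Ω P ω hω.measurable hω.law β] with w hw
  refine hw.congr fun N => ?_
  have h1 := Pool.Agent.helper98.DPZ.frozen_eq β N (fun n x => ω n x w)
  rw [← h1]
  rfl

end Pool.Agent.Results.MP_1e2dfa_pr.VanishingFreeEnergy
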